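import Pool.Agent.Helper70.GUM.St2

/-!
# Project GUM (MP_0bd1d1_al), module GEN3

A module is determined by four invariants.
-/

set_option autoImplicit false
set_option linter.unusedSectionVars false
set_option linter.unusedVariables false

namespace Pool.Agent.Helper28.GUM

open Pool.Agent.Helper70.GUM Module OG UN
open scoped Classical

universe u v w z y o

section aux

variable {k : Type u} {F : Type v} {R : Type w} {K : Type z} {E : Type y} {Ω : Type o} [Field k] [Fintype k]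
  [Field F] [Fintype F] [Algebra k F] {σ : F ≃ₐ[k] F} [CommRing R] [IsDomain R] [Field K] [Algebra R K] {hσ : QE σ}
  [Group E] [MulAction E Ω] {H : Set E} {S : Set Ω}

private theorem eqS (G : G3 hσ H S) {M : Submodule R (Ω → K)} (hM : HS H S M) {f f' : Ω → K}
    (hf : f ∈ M) (hf' : f' ∈ M) (h0 : f G.w0 = f' G.w0) (hw : ∀ g, f (G.w g) = f' (G.w g)) : f = f' := by
  funext s
  by_cases hs : s ∈ S
  · rcases (G.cov s).1 hs with h | ⟨g, h⟩
    · rw [h, h0]
    · rw [h, hw]
  · rw [hM.sup f hf s hs, hM.sup f' hf' s hs]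

private theorem cen_zero : cen hσ 0 = 1 := by
  have h0 : (0 : F) + σ 0 = 0 := by simp
  ext
  · rw [cen_a h0, Hei.one_a]
  · rw [cen_c h0, Hei.one_c]

private theorem scl_inv (t : F) (ht : t ≠ 0) (g : Hei hσ) : scl t⁻¹ (scl t g) = g := by
  have h2 : σ t ≠ 0 := fun h => ht ((map_eq_zero σ).1 h)
  ext
  · rw [scl_a, scl_a, map_inv₀]
    field_simp
  · rw [scl_c, scl_c, map_inv₀]
    field_simp

private theorem scl_cen (t : F) (ht : t ≠ 0) {n : k} (hn : n ≠ 0) (htn : t * σ t = algebraMap k F n)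
    {z : F} (hz : z + σ z = 0) (g : Hei hσ) :
    scl t⁻¹ (cen hσ z * g) = cen hσ (z / algebraMap k F n) * scl t⁻¹ g := by
  have h2 : σ t ≠ 0 := fun h => ht ((map_eq_zero σ).1 h)
  have hn' : algebraMap k F n ≠ 0 := fun h => hn ((map_eq_zero (algebraMap k F)).1 h)
  have hz' : z / algebraMap k F n + σ (z / algebraMap k F n) = 0 := by
    rw [map_div₀, AlgEquiv.commutes, ← add_div, hz, zero_div]
  ext
  · rw [scl_a, Hei.mul_a, Hei.mul_a, scl_a, cen_a hz, cen_a hz']
    ring
  · rw [scl_c, Hei.mul_c, Hei.mul_c, scl_c, cen_a hz, cen_a hz', cen_c hz, cen_c hz', map_inv₀, ← htn]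
    simp only [map_zero, mul_zero, add_zero]
    field_simp

/-- the central element as a division -/
private theorem cen_div (B : ∀ z z' : F, z + σ z = 0 → z' + σ z' = 0 → cen hσ (z + z') = cen hσ z * cen hσ z')
    {z z' : F} (hz : z + σ z = 0) (hz' : z' + σ z' = 0) :
    (cen hσ (z + z'))⁻¹ * cen hσ z' = (cen hσ z)⁻¹ := by
  have h1 : z' + z + σ (z' + z) = 0 := by rw [map_add]; linear_combination hz + hz'
  rw [add_comm z z', B z' z hz' hz, mul_inv_rev]
  rw [mul_assoc, inv_mul_cancel, mul_one]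

private theorem act_sum {ι : Type*} (s : Finset ι) (g : E) (φ : ι → (Ω → K)) :
    act g (∑ i ∈ s, φ i) = ∑ i ∈ s, act g (φ i) := by
  funext x
  rw [act_apply, Finset.sum_apply, Finset.sum_apply]
  rfl

/-- the component `f_n` -/
private noncomputable def fl (G : G3 hσ H S) (χ : AddChar F R) (n : k) (f : Ω → K) : Ω → K :=
  ∑ z ∈ F0 σ, χ (-(algebraMap k F n * z)) • act (G.e (cen hσ z)) f

private theorem fl_mem (G : G3 hσ H S) (χ : AddChar F R) {M : Submodule R (Ω → K)} (hM : HS H S M) (n : k)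
    {f : Ω → K} (hf : f ∈ M) : fl G χ n f ∈ M :=
  Submodule.sum_mem _ (fun z _ => Submodule.smul_mem _ _ (hM.stab _ (G.e_mem _) f hf))

private theorem fl_w (G : G3 hσ H S) (χ : AddChar F R) (A : Ac (K := K) G) (n : k)
    (f : Ω → K) (g : Hei hσ) :
    fl G χ n f (G.w g) = ∑ z ∈ F0 σ, χ (-(algebraMap k F n * z)) • f (G.w ((cen hσ z)⁻¹ * g)) := by
  rw [fl, Finset.sum_apply]
  refine Finset.sum_congr rfl (fun z _ => ?_)
  rw [Pi.smul_apply, A.ew]

private theorem fl_w0 (G : G3 hσ H S) (χ : AddChar F R) (A : Ac (K := K) G) {x : F} (Sm : Sums σ χ x) (n : k)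
    (hn : n ≠ 0) (f : Ω → K) : fl G χ n f G.w0 = 0 := by
  rw [fl, Finset.sum_apply]
  have h1 : ∀ z ∈ F0 σ, (χ (-(algebraMap k F n * z)) • act (G.e (cen hσ z)) f) G.w0
      = χ (algebraMap k F (-n) * z) • f G.w0 := by
    intro z _
    rw [Pi.smul_apply, A.ew0, map_neg (algebraMap k F), neg_mul]
  rw [Finset.sum_congr rfl h1, ← Finset.sum_smul, Sm.s0 (-n) (neg_ne_zero.2 hn), zero_smul]

private theorem sum_fl (G : G3 hσ H S) (χ : AddChar F R) {x : F} (Sm : Sums σ χ x) (A : Ac (K := K) G)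
    {M : Submodule R (Ω → K)} (hM : HS H S M) {f : Ω → K} (hf : f ∈ M) :
    ∑ n : k, fl G χ n f = (Nat.card k : R) • f := by
  have h1 : ∀ z ∈ F0 σ, (∑ n : k, χ (-(algebraMap k F n * z))) • act (G.e (cen hσ z)) f
      = if z = 0 then (Nat.card k : R) • f else 0 := by
    intro z hz
    rw [mem_F0] at hz
    by_cases h : z = 0
    · subst h
      have e1 : act (G.e (cen hσ 0)) f = f := by
        refine eqS G hM (hM.stab _ (G.e_mem _) f hf) hf (A.ew0 _ _) (fun g => ?_)
        rw [A.ew, cen_zero, inv_one, one_mul]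
      rw [if_pos rfl, e1]
      simp
    · have e2 : ∑ n : k, χ (-(algebraMap k F n * z)) = 0 := by
        have := Sm.sk (-z) (by rw [map_neg]; linear_combination -hz) (neg_ne_zero.2 h)
        rw [← this]
        refine Finset.sum_congr rfl (fun n _ => ?_)
        congr 1
        ring
      rw [e2, zero_smul, if_neg h]
  simp only [fl]
  rw [Finset.sum_comm]
  have h2 : ∀ z ∈ F0 σ, ∑ n : k, χ (-(algebraMap k F n * z)) • act (G.e (cen hσ z)) f
      = if z = 0 then (Nat.card k : R) • f else 0 := by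
    intro z hz
    rw [← Finset.sum_smul, h1 z hz]
  rw [Finset.sum_congr rfl h2, Finset.sum_ite_eq', if_pos]
  rw [mem_F0]
  simp

/-- shifting by a central element -/
private theorem shift (G : G3 hσ H S) (χ : AddChar F R) (A : Ac (K := K) G)
    (B : ∀ z z' : F, z + σ z = 0 → z' + σ z' = 0 → cen hσ (z + z') = cen hσ z * cen hσ z') (n : k)
    (f : Ω → K) (g : Hei hσ) {z' : F} (hz' : z' + σ z' = 0) :
    fl G χ n f (G.w (cen hσ z' * g)) = χ (-(algebraMap k F n * z')) • fl G χ n f (G.w g) := by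
  rw [fl_w G χ A, fl_w G χ A, Finset.smul_sum]
  refine Finset.sum_bij' (fun z _ => z - z') (fun z _ => z + z') ?_ ?_ ?_ ?_ ?_
  · intro z hz
    rw [mem_F0] at hz ⊢
    rw [map_sub]
    linear_combination hz - hz'
  · intro z hz
    rw [mem_F0] at hz ⊢
    rw [map_add]
    linear_combination hz + hz'
  · intro z _
    ring
  · intro z _
    ring
  · intro z hz
    rw [mem_F0] at hz
    have h1 : (z - z') + σ (z - z') = 0 := by
      rw [map_sub]
      linear_combination hz - hz'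
    have h2 := cen_div B h1 hz'
    rw [sub_add_cancel] at h2
    rw [← mul_assoc, h2, smul_smul, ← AddChar.map_add_eq_mul]
    congr 2
    ring

private theorem fl_ne_mem (G : G3 hσ H S) (χ : AddChar F R) {x : F} (Sm : Sums σ χ x) (A : Ac (K := K) G)
    (B : ∀ z z' : F, z + σ z = 0 → z' + σ z' = 0 → cen hσ (z + z') = cen hσ z * cen hσ z')
    {N M : Submodule R (Ω → K)} (hN : HS H S N) (hM : HS H S M) (hQ : Qn G χ M ≤ Qn G χ N)
    (n : k) (hn : n ≠ 0) {f : Ω → K} (hf : f ∈ M) : fl G χ n f ∈ N := by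
  obtain ⟨t, ht⟩ := hσ.nrm n
  have hn' : algebraMap k F n ≠ 0 := fun h => hn ((map_eq_zero (algebraMap k F)).1 h)
  have ht0 : t ≠ 0 := by
    rintro rfl
    apply hn'
    rw [← ht, zero_mul]
  have hfl := fl_mem G χ hM n hf
  have hf2 : act (G.tor t) (fl G χ n f) ∈ M := hM.stab _ (G.t_mem t ht0) _ hfl
  have hφ : act (G.tor t) (fl G χ n f) = G.ext (fun g => act (G.tor t) (fl G χ n f) (G.w g)) := by
    have h1 := A.dec (act (G.tor t) (fl G χ n f)) (hM.sup _ hf2)
    rw [A.tw0 t _ ht0, fl_w0 G χ A Sm n hn] at h1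
    conv_lhs => rw [h1]
    funext s
    simp
  have hFun : (fun g => act (G.tor t) (fl G χ n f) (G.w g)) ∈ Fun R K hσ χ := by
    intro g z hz
    have hz' : z / algebraMap k F n + σ (z / algebraMap k F n) = 0 := by
      rw [map_div₀, AlgEquiv.commutes, ← add_div, hz, zero_div]
    change act (G.tor t) (fl G χ n f) (G.w (cen hσ z * g)) = χ (-z) • act (G.tor t) (fl G χ n f) (G.w g)
    rw [A.tw t _ _ ht0, A.tw t _ _ ht0, scl_cen t ht0 hn ht hz, shift G χ A B n f _ hz']
    congr 3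
    field_simp
  have hQM : (fun g => act (G.tor t) (fl G χ n f) (G.w g)) ∈ Qn G χ M := by
    refine ⟨hFun, ?_⟩
    rw [← hφ]
    exact hf2
  have hQN : act (G.tor t) (fl G χ n f) ∈ N := by
    rw [hφ]
    exact (hQ hQM).2
  have hti : t⁻¹ ≠ 0 := inv_ne_zero ht0
  have h3 : act (G.tor t⁻¹) (act (G.tor t) (fl G χ n f)) = fl G χ n f := by
    refine eqS G hM (hM.stab _ (G.t_mem _ hti) _ hf2) hfl ?_ ?_
    · rw [A.tw0 _ _ hti, A.tw0 _ _ ht0]
    · intro g
      rw [A.tw _ _ _ hti, A.tw _ _ _ ht0, inv_inv, scl_inv t ht0]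
  rw [← h3]
  exact hN.stab _ (G.t_mem _ hti) _ hQN

/-- the radial part -/
private noncomputable def PP (G : G3 hσ H S) (χ : AddChar F R) (b : F) (f : Ω → K) : Ω → K :=
  ∑ v : Hei hσ, χ (-(b * v.a)) • act (G.e v) f

private theorem PP_mem (G : G3 hσ H S) (χ : AddChar F R) {M : Submodule R (Ω → K)} (hM : HS H S M) (b : F)
    {f : Ω → K} (hf : f ∈ M) : PP G χ b f ∈ M :=
  Submodule.sum_mem _ (fun z _ => Submodule.smul_mem _ _ (hM.stab _ (G.e_mem _) f hf))

private theorem sum_PP (G : G3 hσ H S) (χ : AddChar F R) {x : F} (Sm : Sums σ χ x) (f : Ω → K) :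
    ∑ b : F, PP G χ b f = ((Nat.card k : R) ^ 2) • fl G χ (0 : k) f := by
  simp only [PP]
  rw [Finset.sum_comm]
  have h1 : ∀ v ∈ (Finset.univ : Finset (Hei hσ)), ∑ b : F, χ (-(b * v.a)) • act (G.e v) f
      = if v.a = 0 then ((Nat.card k : R) ^ 2) • act (G.e v) f else 0 := by
    intro v _
    rw [← Finset.sum_smul]
    by_cases h : v.a = 0
    · rw [if_pos h]
      congr 1
      rw [h]
      simp [Sm.cardF]
    · rw [if_neg h]
      have e2 : ∑ b : F, χ (-(b * v.a)) = 0 := by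
        have := Sm.sF (-v.a) (neg_ne_zero.2 h)
        rw [← this]
        refine Finset.sum_congr rfl (fun n _ => ?_)
        congr 1
        ring
      rw [e2, zero_smul]
  rw [Finset.sum_congr rfl h1, ← Finset.sum_filter, fl, Finset.smul_sum]
  refine Finset.sum_bij' (fun v _ => v.c) (fun z _ => cen hσ z) ?_ ?_ ?_ ?_ ?_
  · intro v hv
    rw [Finset.mem_filter] at hv
    rw [mem_F0, v.h, hv.2, zero_mul]
  · intro z hz
    rw [mem_F0] at hz
    rw [Finset.mem_filter]
    exact ⟨Finset.mem_univ _, cen_a hz⟩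
  · intro v hv
    rw [Finset.mem_filter] at hv
    have hz : v.c + σ v.c = 0 := by rw [v.h, hv.2, zero_mul]
    ext
    · rw [cen_a hz, hv.2]
    · rw [cen_c hz]
  · intro z hz
    rw [mem_F0] at hz
    exact cen_c hz
  · intro v hv
    rw [Finset.mem_filter] at hv
    have hz : v.c + σ v.c = 0 := by rw [v.h, hv.2, zero_mul]
    have e : cen hσ v.c = v := by
      ext
      · rw [cen_a hz, hv.2]
      · rw [cen_c hz]
    rw [e]
    simp

private theorem P0_eq (G : G3 hσ H S) (χ : AddChar F R) (A : Ac (K := K) G)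
    {M : Submodule R (Ω → K)} (hM : HS H S M) {f : Ω → K} (hf : f ∈ M) :
    PP G χ 0 f = fun s => (PP G χ 0 f G.w0) * G.del K s + (∑ v : Hei hσ, f (G.w v)) * G.th K χ 0 s := by
  have hP := PP_mem G χ hM 0 hf
  funext s
  by_cases hs : s ∈ S
  · rcases (G.cov s).1 hs with h | ⟨g, h⟩
    · rw [h, G3.del, if_pos rfl, G3.th, G.ext_w0]
      ring
    · rw [h, G3.del, if_neg (G.ne g), G3.th, G.ext_w]
      rw [PP, Finset.sum_apply]
      have h2 : ∀ v ∈ (Finset.univ : Finset (Hei hσ)), (χ (-(0 * v.a)) • act (G.e v) f) (G.w g)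
          = f (G.w (v⁻¹ * g)) := by
        intro v _
        rw [Pi.smul_apply, A.ew]
        simp
      rw [Finset.sum_congr rfl h2]
      have h3 : ∑ v : Hei hσ, f (G.w (v⁻¹ * g)) = ∑ v : Hei hσ, f (G.w v) := by
        refine Fintype.sum_equiv ((Equiv.inv (Hei hσ)).trans (Equiv.mulRight g)) _ _ (fun v => rfl)
      rw [h3]
      simp
  · have h4 : s ≠ G.w0 := fun h => hs ((G.cov s).2 (Or.inl h))
    have h5 : ∀ g, s ≠ G.w g := fun g h => hs ((G.cov s).2 (Or.inr ⟨g, h⟩))
    rw [hM.sup _ hP s hs, G3.del, if_neg h4, G3.th, G.ext_no _ s h5]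
    ring

private theorem del_smul_mem {M : Submodule R (Ω → K)} {f f' : Ω → K} (h : f ∈ M) (h' : f' ∈ M)
    {f'' : Ω → K} (e : f'' = f - f') : f'' ∈ M := by
  rw [e]
  exact M.sub_mem h h'

end aux

/-- MODULE GEN3. -/
theorem hGEN3 (hBL0 : StBL0.{u, v, w, z, y, o}) : StGEN3.{u, v, w, z, y, o} := by
  intro k F R K E Ω _ _ _ _ _ σ _ _ _ _ hσ _ _ H S G χ r x hC hS hB hA N M hN hM hNM hdel hth hJ hQ
  refine le_antisymm hNM ?_
  intro f hf
  -- the radial part
  have hP : ∀ b : F, PP G χ b f ∈ N := by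
    intro b
    by_cases hb : b = 0
    · subst hb
      have hPM := PP_mem G χ hM 0 hf
      have e1 := P0_eq G χ hA hM hf
      rw [e1] at hPM
      obtain ⟨c'', hc''⟩ := hth _ _ hPM
      have h3 : (fun s => (PP G χ 0 f G.w0 - c'') * G.del K s) ∈ M := by
        refine del_smul_mem hPM (hNM hc'') ?_
        funext s
        rw [Pi.sub_apply]
        ring
      have h4 := hdel _ h3
      have h5 := N.add_mem h4 hc''
      rw [e1]
      convert h5 using 1
      funext s
      rw [Pi.add_apply]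
      ring
    · obtain ⟨-, h2, h3⟩ := hBL0 G hS hA M hM b hb
      obtain ⟨h1, -, -⟩ := hBL0 G hS hA N hN b hb
      rw [PP, h3 f hf]
      exact (h1 _).1 (hJ (h2 f hf))
  have hq : r * (Nat.card k : R) = 1 := hC.inv
  have h0 : fl G χ (0 : k) f ∈ N := by
    have h1 : ∑ b : F, PP G χ b f ∈ N := Submodule.sum_mem _ (fun b _ => hP b)
    rw [sum_PP G χ hS f] at h1
    have h2 := N.smul_mem (r ^ 2) h1
    rw [smul_smul, ← mul_pow, hq, one_pow, one_smul] at h2
    exact h2
  have hall : ∑ n : k, fl G χ n f ∈ N := by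
    refine Submodule.sum_mem _ (fun n _ => ?_)
    by_cases hn : n = 0
    · rw [hn]
      exact h0
    · exact fl_ne_mem G χ hS hA hB.cadd hN hM hQ n hn hf
  rw [sum_fl G χ hS hA hM hf] at hall
  have h2 := N.smul_mem r hall
  rw [smul_smul, hq, one_smul] at h2
  exact h2

end Pool.Agent.Helper28.GUM
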