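import Pool.Agent.Helper60.GUM.St

/-!
Project GUM (MP_0bd1d1_al), module STP.
-/

set_option autoImplicit false

namespace Pool.Agent.Helper28.GUM

open Module _root_.GUM
open OG hiding jn

section pieces

variable {F X K R : Type*} [Field F] [AddCommGroup X] [Module F X] {p : X}
  [Field K] [CommRing R] [Algebra R K]
  {H : Set (X ≃ₗ[F] X)} {S : Set (Submodule F X)} {n : ℕ}

private theorem smul_span_sup (g : X ≃ₗ[F] X) (hg : g p = p) (A : Submodule F X) :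
    g • (Submodule.span F {p} ⊔ A) = Submodule.span F {p} ⊔ g • A := by
  rw [OG.smul_def, OG.smul_def, Submodule.map_sup, Submodule.map_span, Set.image_singleton]
  rw [LinearEquiv.coe_coe, hg]

private theorem Stb_mono {H' : Set (X ≃ₗ[F] X)} (h : Stb H S) (hH : H' ⊆ H) : Stb H' S :=
  fun g hg => h g (hH hg)

private theorem Stb_union {S' : Set (Submodule F X)} (h : Stb H S) (h' : Stb H S') :
    Stb H (S ∪ S') := by
  intro g hg w
  rw [Set.mem_union, Set.mem_union, h g hg w, h' g hg w]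

private theorem Bd_jn [IsLocalRing R] (hfix : ∀ g ∈ H, g p = p) (hS : Stb H S)
    (h : Bd R K H S n) : Bd R K H (jn p '' S) n :=
  Bd_image (jn p) hS (fun g hg w _ => (smul_span_sup g (hfix g hg) w).symm) h

end pieces

variable {k F X : Type*} [Field k] [Field F] [Algebra k F] [AddCommGroup X] [Module F X]
  {σ : F ≃ₐ[k] F} {B : HForm σ X} {R K : Type*} [Field K] [CommRing R] [Algebra R K]

/-- rescaling -/
private theorem exists_scale (hQ : UN.QE σ) {y z : X} (hy : B.f y y ≠ 0) (hz : B.f z z ≠ 0) :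
    ∃ c : F, c ≠ 0 ∧ B.f z z = B.f (c • y) (c • y) := by
  have h1 : σ (B.f y y) = B.f y y := (B.sym y y).symm
  have h2 : σ (B.f z z) = B.f z z := (B.sym z z).symm
  obtain ⟨a, ha⟩ := hQ.fix (B.f z z / B.f y y) (by rw [map_div₀, h1, h2])
  obtain ⟨c, hc⟩ := hQ.nrm a
  have h3 : c * σ c * B.f y y = B.f z z := by
    rw [hc, ha, div_mul_cancel₀ _ hy]
  refine ⟨c, ?_, ?_⟩
  · rintro rfl
    rw [zero_mul, zero_mul] at h3
    exact hz h3.symm
  · rw [B.smul, B.smul_r, ← mul_assoc, h3]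

theorem hStp [FiniteDimensional F X] [IsLocalRing R] (hQ : UN.QE σ) (hG : StGrp B) (hW : StWit B)
    (hTo : StTor B) (hH : StHyp B) (_hT : StTyp B) (χ : AddChar F R) (hWt : StWts R K B χ)
    (hV : StVan R K B χ) (hC : StClf R K B χ) (hA : StSta R K B) : StStp R K B := by
  classical
  intro m hIH Y p p' j hY h hm N hN r
  set Z := pp B Y p p' with hZ'
  have hfr : finrank F Z + 2 = m := by rw [← hm]; exact hH.fr Y p p' h
  have hZ : ND B Z := hH.nd Y p p' h hY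
  have hle : Z ≤ Y := inf_le_left
  have hsub : Gr B Z ⊆ Gr B Y := hG.mono _ _ hle
  have heH : ∀ (v : ↥(pp B Y p p')) (c : F), Adm B v.1 c → eV h v c ∈ Gr B Y :=
    fun v c hc => hG.heis Y p v.1 c h.q1 _ h.m1 (hle v.2) hc
  have hf1 : ∀ g ∈ Gr B Z, g p = p := fun g hg => (hG.fix Y p p' g hg).1
  have hf2 : ∀ g ∈ Gr B Z, g p' = p' := fun g hg => (hG.fix Y p p' g hg).2
  have hst1 : Stb (Gr B Z) (jn p '' Sk B Z (j - 1)) := hG.sjn _ p _ hf1 (hG.stb Z (j - 1))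
  have hst3 : Stb (Gr B Z) (jn p' '' Sk B Z (j - 1)) := hG.sjn _ p' _ hf2 (hG.stb Z (j - 1))
  -- the action on functions of a given weight
  have hact : ∀ y : X, ∀ g ∈ Gr B Z, g y = y → ∀ f : Submodule F X → K, f ∈ WU K h χ y →
      act g f ∈ WU K h χ y := by
    intro y g hg hgy f hf
    have h1 := hWt.cj Y p p' h y f hf g⁻¹ (hG.inv Z g hg)
    rw [inv_inv, hgy] at h1
    exact h1
  have h10 : ∃ (H₀ : Set (X ≃ₗ[F] X)) (B₀ : Set (Submodule F X)),
      Bd R K H₀ B₀ (3 * 3 ^ (m - 2)) ∧ H₀ ⊆ Gr B Y ∧ Stb H₀ B₀ ∧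
      (∀ g ∈ H₀, ∀ f : Submodule F X → K, f ∈ WU K h χ 0 → act g f ∈ WU K h χ 0) ∧
      (∀ f : Submodule F X → K, f ∈ WU K h χ 0 →
        f ∈ supS R K (Sk B Y j) → (∀ w ∈ B₀, f w = 0) → f = 0) := by
    refine ⟨Gr B Z, (jn p '' Sk B Z (j - 1) ∪ Sk B Z j) ∪ jn p' '' Sk B Z (j - 1), ?_, hsub,
      Stb_union (Stb_union hst1 (hG.stb Z j)) hst3,
      fun g hg f hf => hact 0 g hg (map_zero g) f hf, ?_⟩
    · have e : 3 * 3 ^ (m - 2) = 3 ^ finrank F Z + 3 ^ finrank F Z + 3 ^ finrank F Z := by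
        rw [show m - 2 = finrank F Z by omega]
        ring
      rw [e]
      have hI := hIH Z (by omega) hZ
      exact Bd_union (Stb_union hst1 (hG.stb Z j))
        (Bd_union hst1 (Bd_jn hf1 (hG.stb Z (j - 1)) (hI (j - 1))) (hI j))
        (Bd_jn hf2 (hG.stb Z (j - 1)) (hI (j - 1)))
    · intro f hf hs h0
      exact hV.v3 Y p p' h 0 f j hY hf hs (fun A hA => h0 _ (Or.inl (Or.inl ⟨A, hA, rfl⟩)))
        (fun A hA => h0 _ (Or.inl (Or.inr hA))) (fun A hA => h0 _ (Or.inr ⟨A, hA, rfl⟩))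
  have h11 : ∀ y ∈ Z, y ≠ 0 → B.f y y = 0 →
      ∃ (H₀ : Set (X ≃ₗ[F] X)) (B₀ : Set (Submodule F X)),
      Bd R K H₀ B₀ (3 * 3 ^ (m - 4) + 3 ^ (m - 6)) ∧ H₀ ⊆ Gr B Y ∧ Stb H₀ B₀ ∧
      (∀ g ∈ H₀, ∀ f : Submodule F X → K, f ∈ WU K h χ y → act g f ∈ WU K h χ y) ∧
      (∀ f : Submodule F X → K, f ∈ WU K h χ y →
        f ∈ supS R K (Sk B Y j) → (∀ w ∈ B₀, f w = 0) → f = 0) := by
    intro y hy hy0 hyq
    have hst : ∀ i, Stb (GrF B Z y) (Sk B Z i) :=
      fun i => Stb_mono (hG.stb Z i) (fun g hg => hg.1)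
    refine ⟨GrF B Z y, {A | A ∈ Sk B Z j ∧ y ∈ A} ∪
        jn p' '' {A | A ∈ Sk B Z (j - 1) ∧ ∀ a ∈ A, B.f a y = 0},
      ?_, fun g hg => hsub hg.1, ?_, ?_, ?_⟩
    · have h1 := hA m hIH Z y hZ hy hy0 hyq (by omega) j p' hf2
      rw [show finrank F Z - 2 = m - 4 by omega, show finrank F Z - 4 = m - 6 by omega] at h1
      exact h1
    · exact Stb_union (hG.smem Z y _ (hst j))
        (hG.sjn _ p' _ (fun g hg => hf2 g hg.1) (hG.sperp Z y _ (hst (j - 1))))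
    · intro g hg f hf
      exact hact y g hg.1 hg.2 f hf
    · intro f hf hs h0
      refine hV.v3 Y p p' h y f j hY hf hs ?_ ?_ ?_
      · intro A hA
        by_contra hne
        exact hy0 (hWt.w1 Y p p' h y f hY hy hf A hA.1 hne)
      · intro A hA
        by_contra hne
        exact hne (h0 A (Or.inl ⟨hA, hWt.w2 Y p p' h y f hY hy hf A hA.1 hne⟩))
      · intro A hA
        by_contra hne
        exact hne (h0 _ (Or.inr ⟨A, ⟨hA, hWt.w3 Y p p' h y f (j - 1) hy hf A hA hne⟩, rfl⟩))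
  have h12 : ∀ y ∈ Z, B.f y y ≠ 0 →
      ∃ (H₀ : Set (X ≃ₗ[F] X)) (B₀ : Set (Submodule F X)),
      Bd R K H₀ B₀ (3 ^ (m - 3)) ∧ H₀ ⊆ Gr B Y ∧ Stb H₀ B₀ ∧
      (∀ g ∈ H₀, ∀ f : Submodule F X → K, f ∈ WU K h χ y → act g f ∈ WU K h χ y) ∧
      (∀ f : Submodule F X → K, f ∈ WU K h χ y →
        f ∈ supS R K (Sk B Y j) → (∀ w ∈ B₀, f w = 0) → f = 0) := by
    intro y hy hyq
    have hkle : Z ⊓ LinearMap.ker (B.l y) ≤ Z := inf_le_left
    obtain ⟨hknd, hkf⟩ := hH.aniso Z y hy hyq hZ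
    have hkm : Gr B (Z ⊓ LinearMap.ker (B.l y)) ⊆ Gr B Z := hG.mono _ _ hkle
    have hfix : ∀ g ∈ Gr B (Z ⊓ LinearMap.ker (B.l y)), g p' = p' :=
      fun g hg => hf2 g (hkm hg)
    have hy0 : y ≠ 0 := by
      rintro rfl
      exact hyq (B.zero_l 0)
    refine ⟨Gr B (Z ⊓ LinearMap.ker (B.l y)), jn p' '' Sk B (Z ⊓ LinearMap.ker (B.l y)) (j - 1),
      ?_, fun g hg => hsub (hkm hg), hG.sjn _ p' _ hfix (hG.stb _ (j - 1)), ?_, ?_⟩
    · rw [show m - 3 = finrank F (Z ⊓ LinearMap.ker (B.l y) : Submodule F X) by omega]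
      exact Bd_jn hfix (hG.stb _ (j - 1)) (hIH _ (by omega) hknd (j - 1))
    · intro g hg f hf
      refine hact y g (hkm hg) (hg.2.2 y ?_) f hf
      intro z hz
      exact B.swap0 hz.2
    · intro f hf hs h0
      refine hV.v3 Y p p' h y f j hY hf hs ?_ ?_ ?_
      · intro A hA
        by_contra hne
        exact hy0 (hWt.w1 Y p p' h y f hY hy hf A hA.1 hne)
      · intro A hA
        by_contra hne
        have h1 := hWt.w2 Y p p' h y f hY hy hf A hA.1 hne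
        exact hyq (hA.2.2 y h1 y h1)
      · intro A hA
        by_contra hne
        have hz := hWt.w3 Y p p' h y f (j - 1) hy hf A hA hne
        refine hne (h0 _ ⟨A, ⟨?_, hA.2⟩, rfl⟩)
        intro a ha
        exact ⟨hA.1 ha, hz a ha⟩
  have hone : ∃ T' : Finset X, T'.card ≤ 1 ∧
      (∀ y ∈ T', y ∈ Z ∧ y ≠ 0 ∧ B.f y y = 0) ∧
      ∀ y ∈ Z, y ≠ 0 → B.f y y = 0 → ∃ y₀ ∈ T', y₀ ∈ Z ∧ y₀ ≠ 0 ∧ B.f y₀ y₀ = 0 := by
    by_cases hex : ∃ z ∈ Z, z ≠ 0 ∧ B.f z z = 0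
    · obtain ⟨z, hz, hz0, hzq⟩ := hex
      refine ⟨{z}, by simp, ?_, ?_⟩
      · intro y hy
        rw [Finset.mem_singleton] at hy
        rw [hy]
        exact ⟨hz, hz0, hzq⟩
      · intro y _ _ _
        exact ⟨z, by simp, hz, hz0, hzq⟩
    · push Not at hex
      refine ⟨∅, by simp, by simp, ?_⟩
      intro y hy hy0 hyq
      exact absurd hyq (hex y hy hy0)
  have htwo : ∃ T' : Finset X, T'.card ≤ 1 ∧
      (∀ y ∈ T', y ∈ Z ∧ B.f y y ≠ 0) ∧
      ∀ y ∈ Z, B.f y y ≠ 0 → ∃ y₀ ∈ T', y₀ ∈ Z ∧ B.f y₀ y₀ ≠ 0 := by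
    by_cases hex : ∃ z ∈ Z, B.f z z ≠ 0
    · obtain ⟨z, hz, hzq⟩ := hex
      refine ⟨{z}, by simp, ?_, ?_⟩
      · intro y hy
        rw [Finset.mem_singleton] at hy
        rw [hy]
        exact ⟨hz, hzq⟩
      · intro y _ _
        exact ⟨z, by simp, hz, hzq⟩
    · push Not at hex
      refine ⟨∅, by simp, by simp, ?_⟩
      intro y hy hyq
      exact absurd (hex y hy) hyq
  obtain ⟨T₁, hT₁c, hT₁, hT₁r⟩ := hone
  obtain ⟨T₂, hT₂c, hT₂, hT₂r⟩ := htwo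
  have main := hC Y p p' h (Gr B Y) (Sk B Y j) N hY hN heH
      (fun i => match i with
        | 0 => {0}
        | 1 => T₁
        | 2 => T₂)
      (fun i => match i with
        | 0 => 3 * 3 ^ (m - 2)
        | 1 => 3 * 3 ^ (m - 4) + 3 ^ (m - 6)
        | 2 => 3 ^ (m - 3)) ?_ ?_ r
  · rw [Fin.sum_univ_three] at main
    refine le_trans main (Nat.add_le_add (Nat.add_le_add ?_ ?_) ?_)
    · simp
    · calc T₁.card * (3 * 3 ^ (m - 4) + 3 ^ (m - 6))
          ≤ 1 * (3 * 3 ^ (m - 4) + 3 ^ (m - 6)) := Nat.mul_le_mul_right _ hT₁c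
        _ = _ := one_mul _
    · calc T₂.card * 3 ^ (m - 3) ≤ 1 * 3 ^ (m - 3) := Nat.mul_le_mul_right _ hT₂c
        _ = _ := one_mul _
  · intro i
    match i with
    | 0 =>
      intro y hy
      have hy' : y = 0 := by simpa using hy
      rw [hy']
      exact h10
    | 1 =>
      intro y hy
      obtain ⟨hy1, hy2, hy3⟩ := hT₁ y hy
      exact h11 y hy1 hy2 hy3
    | 2 =>
      intro y hy
      obtain ⟨hy1, hy2⟩ := hT₂ y hy
      exact h12 y hy1 hy2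
  · intro y hy
    right
    by_cases hy0 : y = 0
    · refine ⟨0, 0, by simp, 1, hG.one Y, by rw [inv_one]; exact hG.one Y, ?_⟩
      intro f hf
      rw [inv_one, act_one, ← hy0]
      exact hf
    · by_cases hyq : B.f y y = 0
      · obtain ⟨z, hzT, hz, hz0, hzq⟩ := hT₁r y hy hy0 hyq
        obtain ⟨g, hg, hgz⟩ := hW Z hZ z hz y hy hz0 hy0 (by rw [hzq, hyq])
        refine ⟨1, z, hzT, g, hsub hg, hsub (hG.inv Z g hg), ?_⟩
        intro f hf
        have h1 := hWt.cj Y p p' h y f hf g hg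
        have h2 : g⁻¹ y = z := by rw [← hgz]; exact g.symm_apply_apply z
        rw [h2] at h1
        exact h1
      · obtain ⟨z, hzT, hz, hzq⟩ := hT₂r y hy hyq
        obtain ⟨c, hc, hcy⟩ := exists_scale hQ hyq hzq
        obtain ⟨t, ht, ht1, ht2, ht3⟩ := hTo Y p p' h c hc
        have hz0 : z ≠ 0 := by
          rintro rfl
          exact hzq (B.zero_l 0)
        obtain ⟨g, hg, hgz⟩ := hW Z hZ z hz (c • y) (Z.smul_mem c hy) hz0
          (smul_ne_zero hc hy0) hcy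
        refine ⟨2, z, hzT, t * g, hG.mul _ _ ht _ (hsub hg),
          hG.inv _ _ (hG.mul _ _ ht _ (hsub hg)), ?_⟩
        intro f hf
        rw [mul_inv_rev, act_mul]
        have h1 := hWt.tor Y p p' h y f hf c t hc ht ht1 ht2 ht3
        have h2 := hWt.cj Y p p' h (c • y) _ h1 g hg
        have h3 : g⁻¹ (c • y) = z := by rw [← hgz]; exact g.symm_apply_apply z
        rw [h3] at h2
        exact h2

end Pool.Agent.Helper28.GUM
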